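import Mathlib

set_option autoImplicit false
open Filter Topology MeasureTheory ProbabilityTheory

namespace Pool.Agent.H977_stable

lemma integral_comp_mp {α β : Type*} [MeasurableSpace α] [MeasurableSpace β] {μ : Measure α}
    {ν : Measure β} {f : α → β} (hmp : MeasurePreserving f μ ν) {g : β → ℂ} (hg : Measurable g) :
    ∫ x, g (f x) ∂μ = ∫ y, g y ∂ν := by
  rw [← hmp.map_eq, integral_map hmp.measurable.aemeasurable hg.aestronglyMeasurable]

/-- The law of a mark: uniform on the half-open unit square. -/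
noncomputable def markM : Measure (ℝ × ℝ) :=
  (volume : Measure (ℝ × ℝ)).restrict (Set.Ioc 0 1 ×ˢ Set.Ioc 0 1)

instance : IsProbabilityMeasure markM := by
  constructor
  rw [markM, Measure.restrict_apply_univ, Measure.volume_eq_prod, Measure.prod_prod]
  simp

/-- A cell: a Poisson number of points together with a sequence of marks. -/
abbrev Cell : Type := ℕ × (ℕ → ℝ × ℝ)

noncomputable def cellM : Measure Cell :=
  (poissonMeasure 1).prod (Measure.infinitePi (fun _ : ℕ => markM))

instance : IsProbabilityMeasure cellM := by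
  unfold cellM; infer_instance

/-- Sum of a function over the points of a cell. -/
noncomputable def cellSum (F : ℝ × ℝ → ℝ) (z : Cell) : ℝ :=
  ∑ j ∈ Finset.range z.1, F (z.2 j)

lemma measurable_cellSum {F : ℝ × ℝ → ℝ} (hF : Measurable F) : Measurable (cellSum F) := by
  unfold cellSum
  refine measurable_from_prod_countable_right ?_
  intro n
  simp only
  refine Finset.measurable_sum _ ?_
  intro j _
  exact hF.comp (measurable_pi_apply j)

lemma integral_marks {F : ℝ × ℝ → ℝ} (hF : Measurable F) (n : ℕ) :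
    ∫ w : ℕ → ℝ × ℝ, Complex.exp (((∑ j ∈ Finset.range n, F (w j) : ℝ) : ℂ) * Complex.I)
        ∂(Measure.infinitePi (fun _ : ℕ => markM))
      = (∫ z, Complex.exp (((F z : ℝ) : ℂ) * Complex.I) ∂markM) ^ n := by
  have hind : iIndepFun (fun (j : ℕ) (w : ℕ → ℝ × ℝ) =>
      Complex.exp (((F (w j) : ℝ) : ℂ) * Complex.I)) (Measure.infinitePi (fun _ : ℕ => markM)) :=
    iIndepFun_infinitePi (P := fun _ : ℕ => markM)
      (X := fun (_ : ℕ) (z : ℝ × ℝ) => Complex.exp (((F z : ℝ) : ℂ) * Complex.I))
      (fun _ => by fun_prop)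
  have hind' := hind.precomp (g := fun j : Fin n => (j : ℕ)) Fin.val_injective
  have h1 := hind'.integral_fun_prod_eq_prod_integral
    (fun j => by
      refine Measurable.aestronglyMeasurable ?_
      have : Measurable fun w : ℕ → ℝ × ℝ => w (j : ℕ) := measurable_pi_apply _
      fun_prop)
  have h2 : ∀ w : ℕ → ℝ × ℝ, Complex.exp (((∑ j ∈ Finset.range n, F (w j) : ℝ) : ℂ) * Complex.I)
      = ∏ j : Fin n, Complex.exp (((F (w (j : ℕ)) : ℝ) : ℂ) * Complex.I) := by
    intro w
    rw [← Complex.exp_sum, Finset.sum_range]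
    congr 1
    push_cast
    rw [Finset.sum_mul]
  simp_rw [h2]
  rw [h1]
  have h3 : ∀ j : Fin n, ∫ w : ℕ → ℝ × ℝ, Complex.exp (((F (w (j : ℕ)) : ℝ) : ℂ) * Complex.I)
      ∂(Measure.infinitePi (fun _ : ℕ => markM))
      = ∫ z, Complex.exp (((F z : ℝ) : ℂ) * Complex.I) ∂markM := by
    intro j
    have hmp := measurePreserving_eval_infinitePi (fun _ : ℕ => markM) (j : ℕ)
    exact integral_comp_mp hmp
      (g := fun z => Complex.exp (((F z : ℝ) : ℂ) * Complex.I)) (by fun_prop)
  simp_rw [h3]
  simp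

lemma integral_cell {F : ℝ × ℝ → ℝ} (hF : Measurable F) :
    ∫ z, Complex.exp (((cellSum F z : ℝ) : ℂ) * Complex.I) ∂cellM
      = Complex.exp (∫ z, (Complex.exp (((F z : ℝ) : ℂ) * Complex.I) - 1) ∂markM) := by
  have hint : Integrable (fun z : Cell => Complex.exp (((cellSum F z : ℝ) : ℂ) * Complex.I))
      cellM := by
    refine Integrable.of_bound (C := 1) ?_ ?_
    · refine Measurable.aestronglyMeasurable ?_
      have := measurable_cellSum hF
      fun_prop
    · refine Filter.Eventually.of_forall ?_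
      intro z
      rw [Complex.norm_exp_ofReal_mul_I]
  unfold cellM at hint ⊢
  rw [integral_prod _ hint]
  have : ∀ n : ℕ, ∫ w : ℕ → ℝ × ℝ, Complex.exp (((cellSum F (n, w) : ℝ) : ℂ) * Complex.I)
      ∂(Measure.infinitePi (fun _ : ℕ => markM))
      = (∫ z, Complex.exp (((F z : ℝ) : ℂ) * Complex.I) ∂markM) ^ n := by
    intro n
    exact integral_marks hF n
  simp_rw [this]
  rw [integral_poissonMeasure]
  have hI : Integrable (fun z => Complex.exp (((F z : ℝ) : ℂ) * Complex.I)) markM := by
    refine Integrable.of_bound (C := 1) ?_ ?_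
    · refine Measurable.aestronglyMeasurable ?_
      fun_prop
    · refine Filter.Eventually.of_forall ?_
      intro z
      rw [Complex.norm_exp_ofReal_mul_I]
  rw [integral_sub hI (integrable_const _)]
  set φ := ∫ z, Complex.exp (((F z : ℝ) : ℂ) * Complex.I) ∂markM with hφ
  have h4 : ∫ _z : ℝ × ℝ, (1 : ℂ) ∂markM = 1 := by simp
  have h5 : Complex.exp φ = ∑' n : ℕ, φ ^ n / (n.factorial : ℂ) := by
    rw [Complex.exp_eq_exp_ℂ, NormedSpace.exp_eq_tsum_div]
  rw [h4, Complex.exp_sub, h5, div_eq_mul_inv, mul_comm, ← tsum_mul_left, ← Complex.exp_neg]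
  congr 1
  ext n
  simp only [NNReal.coe_one, one_pow, mul_one, Complex.real_smul]
  push_cast
  ring

/-- Index set of cells: time index and level index. -/
abbrev Idx : Type := ℕ × ℤ

abbrev Om : Type := Idx → Cell

noncomputable def PP : Measure Om := Measure.infinitePi (fun _ : Idx => cellM)

instance : IsProbabilityMeasure PP := by
  unfold PP; infer_instance

lemma integral_finite (S : Finset Idx) (F : Idx → ℝ × ℝ → ℝ) (hF : ∀ i, Measurable (F i)) :
    ∫ ω : Om, Complex.exp (((∑ i ∈ S, cellSum (F i) (ω i) : ℝ) : ℂ) * Complex.I) ∂PP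
      = Complex.exp (∑ i ∈ S, ∫ z, (Complex.exp (((F i z : ℝ) : ℂ) * Complex.I) - 1) ∂markM) := by
  have hind : iIndepFun (fun (i : Idx) (ω : Om) =>
      Complex.exp (((cellSum (F i) (ω i) : ℝ) : ℂ) * Complex.I)) PP :=
    iIndepFun_infinitePi (P := fun _ : Idx => cellM)
      (X := fun (i : Idx) (z : Cell) => Complex.exp (((cellSum (F i) z : ℝ) : ℂ) * Complex.I))
      (fun i => by
        have := measurable_cellSum (hF i)
        fun_prop)
  have hind' := hind.precomp (g := fun j : S => (j : Idx)) Subtype.val_injective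
  have h1 := hind'.integral_fun_prod_eq_prod_integral
    (fun j => by
      refine Measurable.aestronglyMeasurable ?_
      have : Measurable fun w : Om => w (j : Idx) := measurable_pi_apply _
      have := measurable_cellSum (hF j)
      fun_prop)
  have h2 : ∀ ω : Om, Complex.exp (((∑ i ∈ S, cellSum (F i) (ω i) : ℝ) : ℂ) * Complex.I)
      = ∏ j : S, Complex.exp (((cellSum (F j) (ω (j : Idx)) : ℝ) : ℂ) * Complex.I) := by
    intro w
    rw [← Complex.exp_sum, ← Finset.sum_coe_sort]
    congr 1
    push_cast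
    rw [Finset.sum_mul]
  simp_rw [h2]
  rw [h1]
  have h3 : ∀ j : S, ∫ ω : Om, Complex.exp (((cellSum (F j) (ω (j : Idx)) : ℝ) : ℂ) * Complex.I) ∂PP
      = Complex.exp (∫ z, (Complex.exp (((F j z : ℝ) : ℂ) * Complex.I) - 1) ∂markM) := by
    intro j
    rw [← integral_cell (hF j)]
    have hmp := measurePreserving_eval_infinitePi (fun _ : Idx => cellM) (j : Idx)
    have hm := measurable_cellSum (hF j)
    exact integral_comp_mp hmp
      (g := fun z => Complex.exp (((cellSum (F j) z : ℝ) : ℂ) * Complex.I)) (by fun_prop)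
  simp_rw [h3]
  rw [← Complex.exp_sum]
  congr 1
  exact Finset.sum_coe_sort S
    (fun i => ∫ z, (Complex.exp (((F i z : ℝ) : ℂ) * Complex.I) - 1) ∂markM)

end Pool.Agent.H977_stable
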