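import Mathlib

set_option autoImplicit false
open Filter Topology MeasureTheory ProbabilityTheory
open scoped ENNReal NNReal

namespace Pool.Agent.H977_stable

/-- Fourier transform of the vertical projection -/
noncomputable def ph (μ : Measure (ℝ × ℝ)) (y : ℝ) : ℂ :=
  ∫ p, Complex.exp (((y * p.2 : ℝ) : ℂ) * Complex.I) ∂μ

lemma exp_int {μ : Measure (ℝ × ℝ)} [IsProbabilityMeasure μ] (f : ℝ × ℝ → ℝ) (hf : Measurable f) :
    Integrable (fun p => Complex.exp (((f p : ℝ) : ℂ) * Complex.I)) μ := by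
  refine Integrable.of_bound (C := 1) ?_ ?_
  · refine Measurable.aestronglyMeasurable ?_
    fun_prop
  · refine Filter.Eventually.of_forall ?_
    intro z
    rw [Complex.norm_exp_ofReal_mul_I]

lemma norm_ph_le_one {μ : Measure (ℝ × ℝ)} [IsProbabilityMeasure μ] (y : ℝ) : ‖ph μ y‖ ≤ 1 := by
  unfold ph
  refine (norm_integral_le_integral_norm _).trans ?_
  simp_rw [Complex.norm_exp_ofReal_mul_I]
  simp

lemma measurable_ph {μ : Measure (ℝ × ℝ)} [IsProbabilityMeasure μ] :
    Continuous (ph μ) := by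
  unfold ph
  refine continuous_of_dominated (bound := fun _ => 1) ?_ ?_ (integrable_const _) ?_
  · intro y
    refine Measurable.aestronglyMeasurable ?_
    fun_prop
  · intro y
    refine Filter.Eventually.of_forall ?_
    intro z
    rw [Complex.norm_exp_ofReal_mul_I]
  · refine Filter.Eventually.of_forall ?_
    intro p
    fun_prop

lemma norm_sq_ph {μ : Measure (ℝ × ℝ)} [IsProbabilityMeasure μ] (y : ℝ) :
    ((‖ph μ y‖ ^ 2 : ℝ) : ℂ)
      = ∫ z : (ℝ × ℝ) × (ℝ × ℝ), Complex.exp (((y * (z.1.2 - z.2.2) : ℝ) : ℂ) * Complex.I)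
          ∂(μ.prod μ) := by
  have h1 : ((‖ph μ y‖ ^ 2 : ℝ) : ℂ) = ph μ y * (starRingEnd ℂ) (ph μ y) := by
    rw [Complex.mul_conj, Complex.normSq_eq_norm_sq]
  rw [h1]
  unfold ph
  rw [← integral_conj, ← integral_prod_mul]
  congr 1
  ext z
  rw [← Complex.exp_conj, ← Complex.exp_add]
  congr 1
  rw [map_mul, Complex.conj_ofReal, Complex.conj_I]
  push_cast
  ring

lemma gauss_identity {μ : Measure (ℝ × ℝ)} [IsProbabilityMeasure μ] (V : ℝ≥0) :
    ∫ y, ‖ph μ y‖ ^ 2 ∂(gaussianReal 0 V)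
      = ∫ z : (ℝ × ℝ) × (ℝ × ℝ), Real.exp (-(V * (z.1.2 - z.2.2) ^ 2 / 2)) ∂(μ.prod μ) := by
  have h1 : ((∫ y, ‖ph μ y‖ ^ 2 ∂(gaussianReal 0 V) : ℝ) : ℂ)
      = ((∫ z : (ℝ × ℝ) × (ℝ × ℝ), Real.exp (-(V * (z.1.2 - z.2.2) ^ 2 / 2)) ∂(μ.prod μ) : ℝ)
        : ℂ) := by
    rw [← integral_complex_ofReal, ← integral_complex_ofReal]
    simp_rw [norm_sq_ph]
    rw [integral_integral_swap]
    · congr 1
      ext z
      have := charFun_gaussianReal (μ := 0) (v := V) (z.1.2 - z.2.2)
      rw [charFun_apply_real] at this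
      have h2 : ∫ y, Complex.exp (((y * (z.1.2 - z.2.2) : ℝ) : ℂ) * Complex.I) ∂(gaussianReal 0 V)
          = ∫ y, Complex.exp ((z.1.2 - z.2.2 : ℝ) * (y : ℂ) * Complex.I) ∂(gaussianReal 0 V) := by
        congr 1
        ext y
        push_cast
        ring_nf
      rw [h2, this]
      push_cast
      congr 1
      ring
    · refine Integrable.of_bound (C := 1) ?_ ?_
      · refine Measurable.aestronglyMeasurable ?_
        simp only [Function.uncurry_def]
        fun_prop
      · refine Filter.Eventually.of_forall ?_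
        intro z
        simp only [Function.uncurry_def]
        rw [Complex.norm_exp_ofReal_mul_I]
  exact_mod_cast h1

lemma gauss_small {V : ℝ≥0} (hV : V ≠ 0) {T : ℝ} (hT : 0 ≤ T) :
    (gaussianReal 0 V).real (Set.Icc (-T) T) ≤ 2 * T * (√(2 * Real.pi * V))⁻¹ := by
  have h1 : (gaussianReal 0 V) (Set.Icc (-T) T)
      ≤ ENNReal.ofReal (2 * T * (√(2 * Real.pi * V))⁻¹) := by
    rw [gaussianReal_apply 0 hV]
    calc ∫⁻ x in Set.Icc (-T) T, gaussianPDF 0 V x
        ≤ ∫⁻ x in Set.Icc (-T) T, ENNReal.ofReal ((√(2 * Real.pi * V))⁻¹) := by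
          refine lintegral_mono ?_
          intro x
          unfold gaussianPDF
          refine ENNReal.ofReal_le_ofReal ?_
          unfold gaussianPDFReal
          have : Real.exp (-(x - 0) ^ 2 / (2 * V)) ≤ 1 := by
            rw [Real.exp_le_one_iff]
            have : 0 ≤ (x - 0) ^ 2 / (2 * (V : ℝ)) := by positivity
            rw [neg_div]; linarith
          calc _ ≤ (√(2 * Real.pi * V))⁻¹ * 1 := by gcongr
            _ = _ := mul_one _
      _ = ENNReal.ofReal (2 * T * (√(2 * Real.pi * V))⁻¹) := by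
          rw [lintegral_const, Measure.restrict_apply MeasurableSet.univ, Set.univ_inter,
            Real.volume_Icc, mul_comm, ← ENNReal.ofReal_mul (by linarith)]
          congr 1
          ring
  rw [Measure.real]
  refine ENNReal.toReal_le_of_le_ofReal ?_ h1
  positivity

/-- A measure whose vertical Fourier transform decays cannot charge short horizontal strips. -/
lemma strip_bound {μ : Measure (ℝ × ℝ)} [IsProbabilityMeasure μ] {C : ℝ}
    (hC : ∀ ξ : ℝ × ℝ, 1 ≤ ‖ξ‖ →
      ‖∫ p, Complex.exp (((ξ.1 * p.1 + ξ.2 * p.2 : ℝ) : ℂ) * Complex.I) ∂μ‖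
        ≤ C * ‖ξ‖ ^ (-(1 / 2 : ℝ) / 2))
    {δ : ℝ} (hδ : 0 < δ) (hδ1 : δ ≤ 1) (v : ℝ) :
    (μ.real {p : ℝ × ℝ | |p.2 - v| ≤ δ ^ 4}) ^ 2 ≤ Real.exp 2 * ((1 + C ^ 2) * δ) := by
  set B : Set (ℝ × ℝ) := {p : ℝ × ℝ | |p.2 - v| ≤ δ ^ 4} with hB
  have hBm : MeasurableSet B := by
    rw [hB]
    have : Measurable (fun p : ℝ × ℝ => |p.2 - v|) := by fun_prop
    exact this measurableSet_Iic
  set V : ℝ≥0 := ⟨(δ ^ 8)⁻¹, by positivity⟩ with hV
  have hVr : (V : ℝ) = (δ ^ 8)⁻¹ := rfl
  have hV0 : V ≠ 0 := by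
    intro h
    have : (V : ℝ) = 0 := by rw [h]; rfl
    rw [hVr] at this
    have : 0 < (δ ^ 8)⁻¹ := by positivity
    linarith
  -- lower bound
  have hlow : Real.exp (-2) * (μ.real B) ^ 2
      ≤ ∫ z : (ℝ × ℝ) × (ℝ × ℝ), Real.exp (-(V * (z.1.2 - z.2.2) ^ 2 / 2)) ∂(μ.prod μ) := by
    have h1 : Real.exp (-2) * (μ.real B) ^ 2
        = ∫ z, (B ×ˢ B).indicator (fun _ => Real.exp (-2)) z ∂(μ.prod μ) := by
      rw [integral_indicator (hBm.prod hBm)]
      simp only [integral_const, smul_eq_mul]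
      rw [Measure.real, Measure.real, Measure.restrict_apply MeasurableSet.univ, Set.univ_inter,
        Measure.prod_prod, ENNReal.toReal_mul]
      ring
    rw [h1]
    refine integral_mono ?_ ?_ ?_
    · exact (integrable_const _).indicator (hBm.prod hBm)
    · refine Integrable.of_bound (C := 1) ?_ ?_
      · refine Measurable.aestronglyMeasurable ?_
        fun_prop
      · refine Filter.Eventually.of_forall ?_
        intro z
        rw [Real.norm_of_nonneg (Real.exp_pos _).le, Real.exp_le_one_iff]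
        have : 0 ≤ (V : ℝ) * (z.1.2 - z.2.2) ^ 2 / 2 := by positivity
        linarith
    · intro z
      by_cases hz : z ∈ B ×ˢ B
      · rw [Set.indicator_of_mem hz, Real.exp_le_exp, hVr]
        have h2 : |z.1.2 - v| ≤ δ ^ 4 := hz.1
        have h3 : |z.2.2 - v| ≤ δ ^ 4 := hz.2
        have h4 : |z.1.2 - z.2.2| ≤ 2 * δ ^ 4 := by
          have : z.1.2 - z.2.2 = (z.1.2 - v) - (z.2.2 - v) := by ring
          rw [this]
          exact (abs_sub _ _).trans (by linarith)
        have h5 : (z.1.2 - z.2.2) ^ 2 ≤ 4 * δ ^ 8 := by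
          rw [← sq_abs]
          nlinarith [abs_nonneg (z.1.2 - z.2.2)]
        have h6 : (δ ^ 8)⁻¹ * (z.1.2 - z.2.2) ^ 2 ≤ 4 := by
          rw [inv_mul_le_iff₀ (by positivity)]
          linarith
        linarith
      · rw [Set.indicator_of_notMem hz]
        exact (Real.exp_pos _).le
  rw [← gauss_identity] at hlow
  -- upper bound
  set T : ℝ := (δ ^ 2)⁻¹ with hT
  have hT1 : 1 ≤ T := by
    rw [hT]
    apply (one_le_inv₀ (by positivity)).2
    nlinarith
  have hdec : ∀ y : ℝ, y ∉ Set.Icc (-T) T → ‖ph μ y‖ ^ 2 ≤ C ^ 2 * δ := by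
    intro y hy
    have hyT : T < |y| := by
      by_contra hcon
      push Not at hcon
      exact hy (abs_le.1 hcon)
    have hnorm : ‖((0, y) : ℝ × ℝ)‖ = |y| := by
      rw [Prod.norm_mk]; simp
    have h1 := hC (0, y) (by rw [hnorm]; linarith)
    rw [hnorm] at h1
    have h2 : (∫ p, Complex.exp (((((0, y) : ℝ × ℝ).1 * p.1 + ((0, y) : ℝ × ℝ).2 * p.2 : ℝ) : ℂ)
        * Complex.I) ∂μ) = ph μ y := by
      unfold ph
      congr 1
      ext p
      simp
    rw [h2] at h1
    have h3 : |y| ^ (-(1 / 2 : ℝ) / 2) ≤ T ^ (-(1 / 2 : ℝ) / 2) :=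
      Real.rpow_le_rpow_of_nonpos (by linarith) hyT.le (by norm_num)
    have h4 : T ^ (-(1 / 2 : ℝ) / 2) = δ ^ (1 / 2 : ℝ) := by
      rw [hT, Real.inv_rpow (by positivity), ← Real.rpow_natCast, ← Real.rpow_mul hδ.le,
        ← Real.rpow_neg hδ.le]
      norm_num
    have hC0 : 0 ≤ C := by
      by_contra hneg
      push Not at hneg
      have : 0 < |y| ^ (-(1 / 2 : ℝ) / 2) := Real.rpow_pos_of_pos (by linarith) _
      nlinarith [norm_nonneg (ph μ y)]
    have h5 : ‖ph μ y‖ ≤ C * δ ^ (1 / 2 : ℝ) := by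
      refine h1.trans ?_
      rw [← h4]
      gcongr
    calc ‖ph μ y‖ ^ 2 ≤ (C * δ ^ (1 / 2 : ℝ)) ^ 2 := by
          gcongr
      _ = C ^ 2 * δ := by
          rw [mul_pow, ← Real.rpow_natCast (δ ^ (1 / 2 : ℝ)), ← Real.rpow_mul hδ.le]
          norm_num
  have hupp : ∫ y, ‖ph μ y‖ ^ 2 ∂(gaussianReal 0 V) ≤ δ + C ^ 2 * δ := by
    have hle : ∀ y : ℝ, ‖ph μ y‖ ^ 2 ≤ (Set.Icc (-T) T).indicator (fun _ => (1:ℝ)) y + C ^ 2 * δ := by
      intro y
      by_cases hy : y ∈ Set.Icc (-T) T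
      · rw [Set.indicator_of_mem hy]
        have h1 := norm_ph_le_one (μ := μ) y
        have h2 : 0 ≤ C ^ 2 * δ := by positivity
        nlinarith [norm_nonneg (ph μ y)]
      · rw [Set.indicator_of_notMem hy, zero_add]
        exact hdec y hy
    have hint1 : Integrable (fun y => (Set.Icc (-T) T).indicator (fun _ => (1:ℝ)) y)
        (gaussianReal 0 V) := (integrable_const _).indicator measurableSet_Icc
    calc ∫ y, ‖ph μ y‖ ^ 2 ∂(gaussianReal 0 V)
        ≤ ∫ y, ((Set.Icc (-T) T).indicator (fun _ => (1:ℝ)) y + C ^ 2 * δ) ∂(gaussianReal 0 V) := by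
          refine integral_mono ?_ (hint1.add (integrable_const _)) hle
          refine Integrable.of_bound (C := 1) ?_ ?_
          · have := (measurable_ph (μ := μ)).measurable
            refine Measurable.aestronglyMeasurable ?_
            fun_prop
          · refine Filter.Eventually.of_forall ?_
            intro y
            rw [Real.norm_of_nonneg (by positivity)]
            have h1 := norm_ph_le_one (μ := μ) y
            nlinarith [norm_nonneg (ph μ y)]
      _ = (gaussianReal 0 V).real (Set.Icc (-T) T) + C ^ 2 * δ := by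
          rw [integral_add hint1 (integrable_const _), integral_indicator measurableSet_Icc]
          simp
      _ ≤ δ + C ^ 2 * δ := by
          have h1 := gauss_small hV0 (T := T) (by linarith)
          have h2 : 2 * T * (√(2 * Real.pi * V))⁻¹ ≤ δ := by
            have h3 : 2 * (δ ^ 4)⁻¹ ≤ √(2 * Real.pi * V) := by
              apply Real.le_sqrt_of_sq_le
              rw [hVr, mul_pow]
              have h4 : ((δ ^ 4)⁻¹) ^ 2 = (δ ^ 8)⁻¹ := by
                rw [inv_pow]; ring_nf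
              rw [h4]
              have h5 : 0 < (δ ^ 8)⁻¹ := by positivity
              nlinarith [Real.pi_gt_three]
            have h6 : (√(2 * Real.pi * V))⁻¹ ≤ (2 * (δ ^ 4)⁻¹)⁻¹ :=
              inv_anti₀ (by positivity) h3
            calc 2 * T * (√(2 * Real.pi * V))⁻¹ ≤ 2 * T * (2 * (δ ^ 4)⁻¹)⁻¹ := by gcongr
              _ = δ ^ 2 := by rw [hT]; field_simp
              _ ≤ δ := by nlinarith
          linarith
  have h := hlow.trans hupp
  have he : Real.exp 2 * Real.exp (-2) = 1 := by rw [← Real.exp_add]; simp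
  calc (μ.real B) ^ 2 = Real.exp 2 * (Real.exp (-2) * (μ.real B) ^ 2) := by
        rw [← mul_assoc, he, one_mul]
    _ ≤ Real.exp 2 * (δ + C ^ 2 * δ) := by gcongr
    _ = _ := by ring

end Pool.Agent.H977_stable
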