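import Mathlib

set_option autoImplicit false
open Filter Topology MeasureTheory

namespace Pool.Agent.H977_stable

noncomputable def gfun (x v : ℝ) : ℂ :=
  Complex.exp (((x * (v ^ 41)⁻¹ : ℝ) : ℂ) * Complex.I) - 1

lemma measurable_gfun (x : ℝ) : Measurable (gfun x) := by
  unfold gfun
  fun_prop

lemma norm_exp_sub_one_le (y : ℝ) : ‖Complex.exp ((y : ℂ) * Complex.I) - 1‖ ≤ |y| := by
  have := Real.norm_exp_I_mul_ofReal_sub_one_le (x := y)
  rw [mul_comm] at this
  simpa using this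

lemma norm_exp_sub_one_le_two (y : ℝ) : ‖Complex.exp ((y : ℂ) * Complex.I) - 1‖ ≤ 2 := by
  calc ‖Complex.exp ((y : ℂ) * Complex.I) - 1‖ ≤ ‖Complex.exp ((y : ℂ) * Complex.I)‖ + ‖(1:ℂ)‖ :=
        norm_sub_le _ _
    _ = 2 := by rw [Complex.norm_exp_ofReal_mul_I]; norm_num

lemma norm_gfun_le (x v : ℝ) : ‖gfun x v‖ ≤ (4 + 2 * |x|) * (1 + v ^ 2)⁻¹ := by
  have hpos : 0 < 1 + v ^ 2 := by positivity
  rw [← div_eq_mul_inv, le_div_iff₀ hpos]
  by_cases hv : |v| ≤ 1
  · have hv2 : v ^ 2 ≤ 1 := by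
      have := sq_le_one_iff_abs_le_one v
      exact this.2 hv
    have h1 := norm_exp_sub_one_le_two (x * (v ^ 41)⁻¹)
    have h2 : ‖gfun x v‖ ≤ 2 := h1
    have h3 : 0 ≤ |x| := abs_nonneg x
    nlinarith [norm_nonneg (gfun x v)]
  · push Not at hv
    have h1 : ‖gfun x v‖ ≤ |x * (v ^ 41)⁻¹| := norm_exp_sub_one_le _
    rw [abs_mul, abs_inv, abs_pow] at h1
    have h2 : (|v| ^ 41)⁻¹ ≤ (|v| ^ 2)⁻¹ := by
      apply inv_anti₀ (by positivity)
      exact pow_le_pow_right₀ hv.le (by norm_num)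
    have h3 : 0 ≤ |x| := abs_nonneg x
    have h4 : ‖gfun x v‖ ≤ |x| * (|v| ^ 2)⁻¹ := h1.trans (mul_le_mul_of_nonneg_left h2 h3)
    have h5 : |v| ^ 2 = v ^ 2 := sq_abs v
    have h6 : 1 < v ^ 2 := by
      rw [← h5]; nlinarith
    rw [h5] at h4
    have h7 : (v ^ 2)⁻¹ * (1 + v ^ 2) ≤ 2 := by
      rw [inv_mul_le_iff₀ (by positivity)]
      linarith
    calc ‖gfun x v‖ * (1 + v ^ 2) ≤ |x| * (v ^ 2)⁻¹ * (1 + v ^ 2) := by gcongr
      _ = |x| * ((v ^ 2)⁻¹ * (1 + v ^ 2)) := by ring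
      _ ≤ |x| * 2 := by gcongr
      _ ≤ 4 + 2 * |x| := by linarith

lemma integrable_gfun (x : ℝ) : Integrable (gfun x) := by
  refine Integrable.mono' (integrable_inv_one_add_sq.const_mul (4 + 2 * |x|))
    (measurable_gfun x).aestronglyMeasurable ?_
  exact Filter.Eventually.of_forall (norm_gfun_le x)

noncomputable def Theta (x : ℝ) : ℂ := ∫ v, gfun x v

noncomputable def kap : ℝ := ∫ v : ℝ, (1 - Real.cos ((v ^ 41)⁻¹))

lemma gfun_conj (v : ℝ) : gfun 1 (-v) = (starRingEnd ℂ) (gfun 1 v) := by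
  unfold gfun
  rw [map_sub, map_one, ← Complex.exp_conj, map_mul, Complex.conj_ofReal, Complex.conj_I]
  congr 2
  have : (-v) ^ 41 = -(v ^ 41) := by ring
  rw [this, inv_neg]
  push_cast
  ring

lemma Theta_one_real : (Theta 1).im = 0 := by
  have h1 : Theta 1 = (starRingEnd ℂ) (Theta 1) := by
    unfold Theta
    rw [← integral_conj]
    simp_rw [← gfun_conj]
    exact (integral_neg_eq_self (gfun 1) volume).symm
  exact Complex.conj_eq_iff_im.1 h1.symm

lemma Theta_one : Theta 1 = -((kap : ℝ) : ℂ) := by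
  apply Complex.ext
  · have : (Theta 1).re = ∫ v, (gfun 1 v).re := by
      unfold Theta
      exact (integral_re (integrable_gfun 1)).symm
    rw [this, Complex.neg_re, Complex.ofReal_re, kap, ← integral_neg]
    congr 1
    ext v
    unfold gfun
    rw [Complex.sub_re, Complex.exp_ofReal_mul_I_re]
    simp
  · rw [Theta_one_real]
    simp

lemma Theta_scale {a x : ℝ} (hx : x = (a ^ 41)⁻¹) : Theta x = ((|a⁻¹| : ℝ) : ℂ) * Theta 1 := by
  have h1 : ∀ v, gfun x v = gfun 1 (a * v) := by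
    intro v
    unfold gfun
    congr 4
    rw [hx, mul_pow, mul_inv, one_mul]
  unfold Theta
  simp_rw [h1]
  rw [Measure.integral_comp_mul_left (fun v => gfun 1 v) a]
  rw [Complex.real_smul]

lemma kap_nonneg_integrand (v : ℝ) : 0 ≤ 1 - Real.cos ((v ^ 41)⁻¹) := by
  linarith [Real.cos_le_one ((v ^ 41)⁻¹)]

lemma integrable_kap : Integrable (fun v : ℝ => 1 - Real.cos ((v ^ 41)⁻¹)) := by
  have h := (integrable_gfun 1).re
  have h2 := h.neg
  refine h2.congr ?_
  refine Filter.Eventually.of_forall ?_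
  intro v
  simp only [Pi.neg_apply, gfun]
  change -(Complex.exp (((1 * (v ^ 41)⁻¹ : ℝ) : ℂ) * Complex.I) - 1).re = _
  rw [Complex.sub_re, Complex.exp_ofReal_mul_I_re]
  simp

lemma kap_pos : 0 < kap := by
  unfold kap
  rw [integral_pos_iff_support_of_nonneg kap_nonneg_integrand integrable_kap]
  have hsub : Set.Ioo (1:ℝ) 2 ⊆ Function.support (fun v : ℝ => 1 - Real.cos ((v ^ 41)⁻¹)) := by
    intro v hv
    simp only [Function.mem_support]
    have h1 : 1 < v ^ 41 := one_lt_pow₀ hv.1 (by norm_num)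
    have h2 : (v ^ 41)⁻¹ < 1 := inv_lt_one_of_one_lt₀ h1
    have h3 : 0 < (v ^ 41)⁻¹ := by positivity
    have h4 : Real.cos ((v ^ 41)⁻¹) < 1 := by
      have := Real.cos_lt_cos_of_nonneg_of_le_pi (x := 0) (y := (v ^ 41)⁻¹) le_rfl
        (by linarith [Real.pi_gt_three]) h3
      simpa using this
    linarith
  refine lt_of_lt_of_le ?_ (measure_mono hsub)
  simp

noncomputable def cc : ℝ := (kap ^ 41)⁻¹

lemma cc_pos : 0 < cc := by
  unfold cc
  have := kap_pos
  positivity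

/-- the normalised exponent -/
lemma Theta_cc (ξ : ℝ) : Theta (cc * ξ) = ((-(|ξ| ^ ((1:ℝ) / 41)) : ℝ) : ℂ) := by
  by_cases hξ : ξ = 0
  · subst hξ
    have : Theta (cc * 0) = 0 := by
      unfold Theta gfun
      simp
    rw [this]
    rw [abs_zero, Real.zero_rpow (by norm_num)]
    simp
  · set b : ℝ := |ξ| ^ ((1:ℝ) / 41) with hb
    have hξ' : 0 < |ξ| := abs_pos.2 hξ
    have hbpos : 0 < b := Real.rpow_pos_of_pos hξ' _
    have hb41 : b ^ 41 = |ξ| := by
      rw [hb, ← Real.rpow_natCast, ← Real.rpow_mul hξ'.le]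
      norm_num
    have hk := kap_pos
    rcases lt_or_gt_of_ne hξ with h | h
    · have hs : cc * ξ = ((-(kap / b)) ^ 41)⁻¹ := by
        have : (-(kap / b)) ^ 41 = -(kap ^ 41 / b ^ 41) := by ring
        rw [this, hb41, abs_of_neg h]
        unfold cc
        field_simp
      rw [Theta_scale hs, Theta_one]
      have : |(-(kap / b))⁻¹| = b / kap := by
        rw [inv_neg, abs_neg, inv_div, abs_of_pos (by positivity)]
      rw [this, ← Complex.ofReal_neg, ← Complex.ofReal_mul]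
      congr 1
      field_simp
    · have hs : cc * ξ = ((kap / b) ^ 41)⁻¹ := by
        rw [div_pow, hb41, abs_of_pos h]
        unfold cc
        field_simp
      rw [Theta_scale hs, Theta_one]
      have : |(kap / b)⁻¹| = b / kap := by
        rw [inv_div, abs_of_pos (by positivity)]
      rw [this, ← Complex.ofReal_neg, ← Complex.ofReal_mul]
      congr 1
      field_simp

end Pool.Agent.H977_stable
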