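import Mathlib
import Pool.Agent.H977_stable.Cell
import Pool.Agent.H977_stable.Theta

set_option autoImplicit false
open Filter Topology MeasureTheory ProbabilityTheory

namespace Pool.Agent.H977_stable

/-- the jump/time functional of a time function, on the cell with given index -/
noncomputable def Fc (h : ℝ → ℝ) (i : Idx) (z : ℝ × ℝ) : ℝ :=
  cc * (((i.2 : ℝ) + z.2) ^ 41)⁻¹ * h ((i.1 : ℝ) + z.1)

lemma measurable_Fc {h : ℝ → ℝ} (hh : Measurable h) (i : Idx) : Measurable (Fc h i) := by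
  unfold Fc
  fun_prop

noncomputable def Phi (h : ℝ → ℝ) (z : ℝ × ℝ) : ℂ :=
  Complex.exp (((cc * (z.2 ^ 41)⁻¹ * h z.1 : ℝ) : ℂ) * Complex.I) - 1

noncomputable def Box (i : Idx) : Set (ℝ × ℝ) :=
  Set.Ioc (i.1 : ℝ) ((i.1 : ℝ) + 1) ×ˢ Set.Ioc (i.2 : ℝ) ((i.2 : ℝ) + 1)

lemma psi_eq (h : ℝ → ℝ) (i : Idx) :
    ∫ z, (Complex.exp (((Fc h i z : ℝ) : ℂ) * Complex.I) - 1) ∂markM = ∫ z in Box i, Phi h z := by
  have hmp : MeasurePreserving (fun z : ℝ × ℝ => ((i.1 : ℝ), (i.2 : ℝ)) + z) volume volume :=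
    measurePreserving_add_left volume _
  have hemb : MeasurableEmbedding (fun z : ℝ × ℝ => ((i.1 : ℝ), (i.2 : ℝ)) + z) :=
    measurableEmbedding_addLeft _
  rw [← hmp.setIntegral_preimage_emb hemb]
  have hpre : (fun z : ℝ × ℝ => ((i.1 : ℝ), (i.2 : ℝ)) + z) ⁻¹' (Box i)
      = Set.Ioc 0 1 ×ˢ Set.Ioc 0 1 := by
    ext z
    simp only [Box, Set.mem_preimage, Set.mem_prod, Set.mem_Ioc, Prod.fst_add, Prod.snd_add]
    constructor
    · rintro ⟨⟨h1, h2⟩, h3, h4⟩
      exact ⟨⟨by linarith, by linarith⟩, by linarith, by linarith⟩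
    · rintro ⟨⟨h1, h2⟩, h3, h4⟩
      exact ⟨⟨by linarith, by linarith⟩, by linarith, by linarith⟩
  rw [hpre]
  rfl

lemma Box_disjoint : Pairwise (Function.onFun Disjoint Box) := by
  intro i j hij
  rw [Function.onFun, Set.disjoint_left]
  rintro z ⟨⟨h1, h2⟩, h3, h4⟩ ⟨⟨h5, h6⟩, h7, h8⟩
  apply hij
  have e1 : i.1 = j.1 := by
    have a1 : (i.1 : ℝ) < (j.1 : ℝ) + 1 := lt_of_lt_of_le h1 h6
    have a2 : (j.1 : ℝ) < (i.1 : ℝ) + 1 := lt_of_lt_of_le h5 h2
    have b1 : i.1 < j.1 + 1 := by exact_mod_cast a1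
    have b2 : j.1 < i.1 + 1 := by exact_mod_cast a2
    omega
  have e2 : i.2 = j.2 := by
    have a1 : (i.2 : ℝ) < (j.2 : ℝ) + 1 := lt_of_lt_of_le h3 h8
    have a2 : (j.2 : ℝ) < (i.2 : ℝ) + 1 := lt_of_lt_of_le h7 h4
    have b1 : i.2 < j.2 + 1 := by exact_mod_cast a1
    have b2 : j.2 < i.2 + 1 := by exact_mod_cast a2
    omega
  exact Prod.ext e1 e2

lemma Box_iUnion : (⋃ i, Box i) = Set.Ioi (0:ℝ) ×ˢ (Set.univ : Set ℝ) := by
  ext z
  simp only [Set.mem_iUnion, Box, Set.mem_prod, Set.mem_Ioc, Set.mem_Ioi, Set.mem_univ, and_true]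
  constructor
  · rintro ⟨i, ⟨h1, _⟩, _⟩
    have : (0:ℝ) ≤ (i.1 : ℝ) := Nat.cast_nonneg _
    linarith
  · intro hz
    refine ⟨(⌈z.1⌉₊ - 1, ⌈z.2⌉ - 1), ⟨?_, ?_⟩, ?_, ?_⟩
    · have h1 : 1 ≤ ⌈z.1⌉₊ := Nat.one_le_ceil_iff.2 hz
      have h2 := Nat.ceil_lt_add_one hz.le
      push_cast [Nat.cast_sub h1]
      linarith
    · have h1 : 1 ≤ ⌈z.1⌉₊ := Nat.one_le_ceil_iff.2 hz
      have h2 := Nat.le_ceil z.1
      push_cast [Nat.cast_sub h1]
      linarith
    · have h2 := Int.ceil_lt_add_one z.2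
      push_cast
      linarith
    · have h2 := Int.le_ceil z.2
      push_cast
      linarith

lemma measurableSet_Box (i : Idx) : MeasurableSet (Box i) :=
  measurableSet_Ioc.prod measurableSet_Ioc

/-- a step function -/
noncomputable def stepH {n : ℕ} (t : Fin (n + 1) → ℝ) (ξ : Fin n → ℝ) (u : ℝ) : ℝ :=
  ∑ j : Fin n, ξ j * (Set.Ioc (t j.castSucc) (t j.succ)).indicator (fun _ => (1:ℝ)) u

lemma measurable_stepH {n : ℕ} (t : Fin (n + 1) → ℝ) (ξ : Fin n → ℝ) : Measurable (stepH t ξ) := by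
  unfold stepH
  refine Finset.measurable_sum _ ?_
  intro j _
  exact (measurable_const.indicator measurableSet_Ioc).const_mul _

lemma Ioc_disj {n : ℕ} {t : Fin (n + 1) → ℝ} (ht : StrictMono t) {i j : Fin n} {u : ℝ}
    (hi : u ∈ Set.Ioc (t i.castSucc) (t i.succ)) (hj : u ∈ Set.Ioc (t j.castSucc) (t j.succ)) :
    i = j := by
  by_contra hne
  rcases lt_or_gt_of_ne hne with h | h
  · have h1 : i.succ ≤ j.castSucc := by
      rw [Fin.le_def]; simp only [Fin.val_succ, Fin.val_castSucc]; exact h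
    have := ht.monotone h1
    linarith [hi.2, hj.1]
  · have h1 : j.succ ≤ i.castSucc := by
      rw [Fin.le_def]; simp only [Fin.val_succ, Fin.val_castSucc]; exact h
    have := ht.monotone h1
    linarith [hj.2, hi.1]

lemma Phi_step {n : ℕ} {t : Fin (n + 1) → ℝ} (ht : StrictMono t) (ξ : Fin n → ℝ) (z : ℝ × ℝ) :
    Phi (stepH t ξ) z = ∑ j : Fin n,
      ((Set.Ioc (t j.castSucc) (t j.succ)).indicator (fun _ => (1:ℂ)) z.1) * gfun (cc * ξ j) z.2 := by
  by_cases hz : ∃ j : Fin n, z.1 ∈ Set.Ioc (t j.castSucc) (t j.succ)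
  · obtain ⟨j, hj⟩ := hz
    have h1 : stepH t ξ z.1 = ξ j := by
      unfold stepH
      rw [Finset.sum_eq_single j]
      · rw [Set.indicator_of_mem hj]; simp
      · intro b _ hb
        rw [Set.indicator_of_notMem]
        · simp
        · intro hb'
          exact hb (Ioc_disj ht hb' hj)
      · simp
    rw [Finset.sum_eq_single j]
    · rw [Set.indicator_of_mem hj, Phi, h1, gfun, one_mul]
      congr 4
      ring
    · intro b _ hb
      rw [Set.indicator_of_notMem]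
      · simp
      · intro hb'
        exact hb (Ioc_disj ht hb' hj)
    · simp
  · push Not at hz
    have h1 : stepH t ξ z.1 = 0 := by
      unfold stepH
      refine Finset.sum_eq_zero ?_
      intro j _
      rw [Set.indicator_of_notMem (hz j)]
      simp
    rw [Phi, h1]
    rw [Finset.sum_eq_zero]
    · simp
    · intro j _
      rw [Set.indicator_of_notMem (hz j)]
      simp

lemma integrable_ind (a b : ℝ) :
    Integrable (fun u : ℝ => (Set.Ioc a b).indicator (fun _ => (1:ℂ)) u) := by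
  rw [integrable_indicator_iff measurableSet_Ioc]
  exact integrableOn_const (by simp)

lemma integral_ind {a b : ℝ} (hab : a ≤ b) :
    ∫ u : ℝ, (Set.Ioc a b).indicator (fun _ => (1:ℂ)) u = ((b - a : ℝ) : ℂ) := by
  rw [integral_indicator measurableSet_Ioc]
  simp [hab]

lemma integrable_Phi_step {n : ℕ} {t : Fin (n + 1) → ℝ} (ht : StrictMono t) (ξ : Fin n → ℝ) :
    Integrable (Phi (stepH t ξ)) := by
  have h : Phi (stepH t ξ) = fun z => ∑ j : Fin n,
      ((Set.Ioc (t j.castSucc) (t j.succ)).indicator (fun _ => (1:ℂ)) z.1)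
        * gfun (cc * ξ j) z.2 := by
    ext z
    exact Phi_step ht ξ z
  rw [h]
  refine integrable_finsetSum _ ?_
  intro j _
  exact (integrable_ind _ _).mul_prod (integrable_gfun _)

lemma integral_Phi_step {n : ℕ} {t : Fin (n + 1) → ℝ} (ht : StrictMono t) (ξ : Fin n → ℝ) :
    ∫ z, Phi (stepH t ξ) z
      = ((-(∑ j : Fin n, (t j.succ - t j.castSucc) * |ξ j| ^ ((1:ℝ) / 41)) : ℝ) : ℂ) := by
  simp_rw [Phi_step ht ξ]
  rw [integral_finsetSum]
  · rw [← Finset.sum_neg_distrib]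
    push_cast
    refine Finset.sum_congr rfl ?_
    intro j _
    have h1 : t j.castSucc ≤ t j.succ := ht.monotone (Fin.castSucc_lt_succ).le
    have := integral_prod_mul (μ := (volume : Measure ℝ)) (ν := (volume : Measure ℝ))
      (fun u : ℝ => (Set.Ioc (t j.castSucc) (t j.succ)).indicator (fun _ => (1:ℂ)) u)
      (gfun (cc * ξ j))
    rw [← Measure.volume_eq_prod] at this
    rw [this, integral_ind h1]
    have h2 := Theta_cc (ξ j)
    unfold Theta at h2
    rw [h2]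
    push_cast
    ring
  · intro j _
    exact (integrable_ind _ _).mul_prod (integrable_gfun _)

lemma hasSum_psi {n : ℕ} {t : Fin (n + 1) → ℝ} (ht0 : 0 ≤ t 0) (ht : StrictMono t)
    (ξ : Fin n → ℝ) :
    HasSum (fun i : Idx =>
      ∫ z, (Complex.exp (((Fc (stepH t ξ) i z : ℝ) : ℂ) * Complex.I) - 1) ∂markM)
      ((-(∑ j : Fin n, (t j.succ - t j.castSucc) * |ξ j| ^ ((1:ℝ) / 41)) : ℝ) : ℂ) := by
  simp_rw [psi_eq]
  have h := hasSum_integral_iUnion (μ := (volume : Measure (ℝ × ℝ))) (s := Box)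
    (f := Phi (stepH t ξ)) measurableSet_Box Box_disjoint
    ((integrable_Phi_step ht ξ).integrableOn)
  have h2 : ∫ z in ⋃ i, Box i, Phi (stepH t ξ) z = ∫ z, Phi (stepH t ξ) z := by
    apply setIntegral_eq_integral_of_forall_compl_eq_zero
    intro z hz
    rw [Box_iUnion] at hz
    have hz1 : z.1 ≤ 0 := by
      by_contra hcon
      push Not at hcon
      exact hz ⟨hcon, Set.mem_univ _⟩
    rw [Phi_step ht]
    refine Finset.sum_eq_zero ?_
    intro j _
    rw [Set.indicator_of_notMem]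
    · simp
    · intro hmem
      have : t 0 ≤ t j.castSucc := ht.monotone (Fin.zero_le _)
      linarith [hmem.1]
  rw [h2, integral_Phi_step ht ξ] at h
  exact h

end Pool.Agent.H977_stable
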