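import Mathlib
import Pool.Agent.H977_stable.Step

set_option autoImplicit false
open Filter Topology MeasureTheory ProbabilityTheory
open scoped ENNReal

namespace Pool.Agent.H977_stable

/-- summable weights -/
noncomputable def wt (i : Idx) : ℝ := (1 / 2 : ℝ) ^ i.1 * (1 / ((|i.2| : ℤ) + 1 : ℝ) ^ 2)

lemma wt_pos (i : Idx) : 0 < wt i := by
  unfold wt
  have : (0:ℝ) ≤ ((|i.2| : ℤ) : ℝ) := by exact_mod_cast abs_nonneg i.2
  positivity

lemma summable_wt : Summable wt := by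
  have h1 : Summable (fun k : ℕ => (1 / 2 : ℝ) ^ k) := summable_geometric_two
  have h3 : Summable (fun n : ℕ => 1 / ((n : ℝ) + 1) ^ 2) := by
    have := (summable_nat_add_iff 1).2 (Real.summable_one_div_nat_pow.2 (one_lt_two))
    refine this.congr ?_
    intro n
    push_cast
    rfl
  have h2 : Summable (fun n : ℤ => (1 / (((|n| : ℤ) : ℝ) + 1) ^ 2)) := by
    refine Summable.of_nat_of_neg ?_ ?_
    · refine h3.congr ?_
      intro n
      simp
    · refine h3.congr ?_
      intro n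
      simp
  have hf : 0 ≤ (fun k : ℕ => (1 / 2 : ℝ) ^ k) := by
    intro k
    show (0:ℝ) ≤ (1 / 2 : ℝ) ^ k
    positivity
  have hg : 0 ≤ (fun n : ℤ => (1 / (((|n| : ℤ) : ℝ) + 1) ^ 2)) := by
    intro n
    show (0:ℝ) ≤ 1 / (((|n| : ℤ) : ℝ) + 1) ^ 2
    positivity
  have h4 := Summable.mul_of_nonneg h1 h2 hf hg
  refine h4.congr ?_
  intro i
  unfold wt
  ring

/-- The good event -/
def Good (ω : Om) : Prop :=
  (∀ i j, (ω i).2 j ∈ Set.Ioc (0:ℝ) 1 ×ˢ Set.Ioc (0:ℝ) 1) ∧
    Summable (fun i => ((ω i).1 : ℝ) * wt i)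

lemma lintegral_nat_poisson : ∫⁻ n : ℕ, (n : ℝ≥0∞) ∂(poissonMeasure 1) ≠ ⊤ := by
  have h1 : Integrable (fun n : ℕ => (n : ℝ)) (poissonMeasure 1) := by
    rw [integrable_poissonMeasure_iff]
    have h2 := (Real.summable_pow_div_factorial 2).mul_left (Real.exp (-1))
    refine Summable.of_nonneg_of_le (fun n => by positivity) ?_ h2
    intro n
    simp only [NNReal.coe_one, one_pow, mul_one, Real.norm_natCast]
    have : (n : ℝ) ≤ 2 ^ n := by exact_mod_cast (Nat.lt_two_pow_self).le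
    calc Real.exp (-1) / (n.factorial : ℝ) * (n : ℝ)
        ≤ Real.exp (-1) / (n.factorial : ℝ) * 2 ^ n := by gcongr
      _ = Real.exp (-1) * (2 ^ n / (n.factorial : ℝ)) := by ring
  have h3 := h1.lintegral_lt_top
  refine ne_of_lt (lt_of_le_of_lt (le_of_eq ?_) h3)
  congr 1
  ext n
  simp

lemma mp_count (i : Idx) : MeasurePreserving (fun ω : Om => (ω i).1) PP (poissonMeasure 1) := by
  have h1 := measurePreserving_eval_infinitePi (fun _ : Idx => cellM) i
  have h2 : MeasurePreserving (Prod.fst : Cell → ℕ) cellM (poissonMeasure 1) := by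
    unfold cellM
    exact measurePreserving_fst
  exact h2.comp h1

lemma mp_mark (i : Idx) (j : ℕ) : MeasurePreserving (fun ω : Om => (ω i).2 j) PP markM := by
  have h1 := measurePreserving_eval_infinitePi (fun _ : Idx => cellM) i
  have h2 : MeasurePreserving (Prod.snd : Cell → (ℕ → ℝ × ℝ)) cellM
      (Measure.infinitePi (fun _ : ℕ => markM)) := by
    unfold cellM
    exact measurePreserving_snd
  have h3 := measurePreserving_eval_infinitePi (fun _ : ℕ => markM) j
  exact h3.comp (h2.comp h1)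

lemma ae_good : ∀ᵐ ω ∂PP, Good ω := by
  refine Filter.Eventually.and ?_ ?_
  · rw [ae_all_iff]
    intro i
    rw [ae_all_iff]
    intro j
    have h1 : ∀ᵐ z ∂markM, z ∈ Set.Ioc (0:ℝ) 1 ×ˢ Set.Ioc (0:ℝ) 1 := by
      unfold markM
      exact ae_restrict_mem (measurableSet_Ioc.prod measurableSet_Ioc)
    exact (mp_mark i j).quasiMeasurePreserving.ae h1
  · have hmeas : ∀ i : Idx, Measurable (fun ω : Om => ENNReal.ofReal (((ω i).1 : ℝ) * wt i)) := by
      intro i
      have : Measurable (fun ω : Om => (ω i).1) := (mp_count i).measurable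
      have h2 : Measurable (fun n : ℕ => ENNReal.ofReal ((n : ℝ) * wt i)) := measurable_of_countable _
      exact h2.comp this
    have hfin : ∫⁻ ω, ∑' i, ENNReal.ofReal (((ω i).1 : ℝ) * wt i) ∂PP ≠ ⊤ := by
      rw [lintegral_tsum (fun i => (hmeas i).aemeasurable)]
      have hi : ∀ i : Idx, ∫⁻ ω, ENNReal.ofReal (((ω i).1 : ℝ) * wt i) ∂PP
          = ENNReal.ofReal (wt i) * ∫⁻ n : ℕ, (n : ℝ≥0∞) ∂(poissonMeasure 1) := by
        intro i
        have h2 : Measurable (fun n : ℕ => ENNReal.ofReal ((n : ℝ) * wt i)) :=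
          measurable_of_countable _
        have := (mp_count i).lintegral_comp h2
        rw [this, ← lintegral_const_mul _ (measurable_of_countable _)]
        congr 1
        ext n
        rw [mul_comm, ENNReal.ofReal_mul (wt_pos i).le, ENNReal.ofReal_natCast]
      simp_rw [hi]
      rw [ENNReal.tsum_mul_right]
      exact ENNReal.mul_ne_top (summable_wt.tsum_ofReal_ne_top) lintegral_nat_poisson
    have h3 := ae_lt_top' (Measurable.tsum hmeas).aemeasurable hfin
    filter_upwards [h3] with ω hω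
    have h4 := ENNReal.summable_toReal hω.ne
    refine h4.congr ?_
    intro i
    rw [ENNReal.toReal_ofReal]
    have := (wt_pos i).le
    positivity

/-- absolute jump mass in a cell -/
noncomputable def Ab (i : Idx) (ω : Om) : ℝ :=
  ∑ j ∈ Finset.range (ω i).1, |cc * (((i.2 : ℝ) + ((ω i).2 j).2) ^ 41)⁻¹|

lemma Ab_nonneg (i : Idx) (ω : Om) : 0 ≤ Ab i ω := by
  unfold Ab
  exact Finset.sum_nonneg (fun _ _ => abs_nonneg _)

lemma level_lower (n : ℤ) {v : ℝ} (h0 : 0 < v) (h1 : v ≤ 1) :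
    ((|n| : ℤ) : ℝ) - 1 ≤ |(n : ℝ) + v| := by
  have h2 : ((|n| : ℤ) : ℝ) = |(n : ℝ)| := by push_cast; rfl
  rw [h2]
  have h3 : |(n:ℝ)| ≤ |(n:ℝ) + v| + |v| := by
    have := abs_sub ((n:ℝ) + v) v
    simpa using this
  rw [abs_of_pos h0] at h3
  linarith

lemma Ab_le {ω : Om} (hω : Good ω) {i : Idx} (hn : 2 ≤ |i.2|) :
    Ab i ω ≤ ((ω i).1 : ℝ) * (cc * ((((|i.2| : ℤ) : ℝ) - 1) ^ 41)⁻¹) := by
  unfold Ab
  have hn' : (2:ℝ) ≤ ((|i.2| : ℤ) : ℝ) := by exact_mod_cast hn
  have : ∀ j ∈ Finset.range (ω i).1, |cc * (((i.2 : ℝ) + ((ω i).2 j).2) ^ 41)⁻¹|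
      ≤ cc * ((((|i.2| : ℤ) : ℝ) - 1) ^ 41)⁻¹ := by
    intro j _
    have hm := hω.1 i j
    have h1 := level_lower i.2 hm.2.1 hm.2.2
    rw [abs_mul, abs_of_pos cc_pos, abs_inv, abs_pow]
    have hc := cc_pos
    have hpos : (0:ℝ) < ((|i.2| : ℤ) : ℝ) - 1 := by linarith
    gcongr
  calc _ ≤ ∑ j ∈ Finset.range (ω i).1, cc * ((((|i.2| : ℤ) : ℝ) - 1) ^ 41)⁻¹ :=
        Finset.sum_le_sum this
    _ = _ := by simp

lemma Ab_le_wt {ω : Om} (hω : Good ω) {i : Idx} (hn : 2 ≤ |i.2|) {K : ℕ} (hK : i.1 ≤ K) :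
    Ab i ω ≤ (9 * cc * 2 ^ K) * (((ω i).1 : ℝ) * wt i) := by
  refine (Ab_le hω hn).trans ?_
  have hn' : (2:ℝ) ≤ ((|i.2| : ℤ) : ℝ) := by exact_mod_cast hn
  set m : ℝ := ((|i.2| : ℤ) : ℝ) with hm
  have h1 : ((m - 1) ^ 41)⁻¹ ≤ 9 * (1 / (m + 1) ^ 2) := by
    have h2 : ((m - 1) ^ 41)⁻¹ ≤ ((m - 1) ^ 2)⁻¹ := by
      apply inv_anti₀ (by nlinarith)
      exact pow_le_pow_right₀ (by linarith) (by norm_num)
    refine h2.trans ?_
    rw [inv_eq_one_div, mul_one_div, div_le_div_iff₀ (by nlinarith) (by positivity)]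
    nlinarith
  have h3 : (1:ℝ) ≤ 2 ^ K * (1 / 2) ^ i.1 := by
    have : (2:ℝ) ^ K * (1 / 2) ^ i.1 ≥ 2 ^ i.1 * (1 / 2) ^ i.1 := by
      gcongr
      norm_num
    rw [← mul_pow] at this
    norm_num at this
    linarith
  have hcc := cc_pos
  have hN : (0:ℝ) ≤ ((ω i).1 : ℝ) := Nat.cast_nonneg _
  unfold wt
  calc ((ω i).1 : ℝ) * (cc * ((m - 1) ^ 41)⁻¹)
      ≤ ((ω i).1 : ℝ) * (cc * (9 * (1 / (m + 1) ^ 2))) := by gcongr
    _ = (((ω i).1 : ℝ) * (cc * (9 * (1 / (m + 1) ^ 2)))) * 1 := by ring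
    _ ≤ (((ω i).1 : ℝ) * (cc * (9 * (1 / (m + 1) ^ 2)))) * (2 ^ K * (1 / 2) ^ i.1) := by
        gcongr
    _ = _ := by rw [hm]; ring

lemma summable_Ab {ω : Om} (hω : Good ω) (K : ℕ) :
    Summable (fun i : Idx => if i.1 ≤ K then Ab i ω else 0) := by
  refine Summable.of_norm_bounded_eventually (g := fun i => (9 * cc * 2 ^ K) * (((ω i).1 : ℝ) * wt i))
    (hω.2.mul_left _) ?_
  have hfin : Set.Finite {i : Idx | i.1 ≤ K ∧ |i.2| ≤ 1} := by
    have : {i : Idx | i.1 ≤ K ∧ |i.2| ≤ 1} ⊆ (Set.Iic K) ×ˢ (Set.Icc (-1) 1) := by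
      rintro i ⟨h1, h2⟩
      exact ⟨h1, abs_le.1 h2⟩
    exact ((Set.finite_Iic K).prod (Set.finite_Icc _ _)).subset this
  rw [Filter.eventually_cofinite]
  refine hfin.subset ?_
  intro i hi
  simp only [Set.mem_ofPred_eq] at hi ⊢
  by_contra hcon
  apply hi
  split_ifs with h
  · have h2 : 2 ≤ |i.2| := by
      by_contra h3
      exact hcon ⟨h, by omega⟩
    rw [Real.norm_of_nonneg (Ab_nonneg i ω)]
    exact Ab_le_wt hω h2 h
  · have := cc_pos
    have := (wt_pos i).le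
    simp only [norm_zero]
    positivity

lemma cellSum_le {ω : Om} (hω : Good ω) {h : ℝ → ℝ} {K : ℕ} (h1 : ∀ u, |h u| ≤ 1)
    (h2 : ∀ u : ℝ, (K : ℝ) + 1 < u → h u = 0) (i : Idx) :
    |cellSum (Fc h i) (ω i)| ≤ if i.1 ≤ K then Ab i ω else 0 := by
  unfold cellSum
  split_ifs with hi
  · refine (Finset.abs_sum_le_sum_abs _ _).trans ?_
    unfold Ab
    refine Finset.sum_le_sum ?_
    intro j _
    unfold Fc
    rw [abs_mul]
    calc _ ≤ |cc * (((i.2 : ℝ) + ((ω i).2 j).2) ^ 41)⁻¹| * 1 := by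
          gcongr
          exact h1 _
      _ = _ := by ring
  · rw [Finset.sum_eq_zero]
    · simp
    · intro j _
      unfold Fc
      rw [h2, mul_zero]
      have hm := (hω.1 i j).1.1
      have : (K:ℝ) + 1 ≤ (i.1 : ℝ) := by
        push Not at hi
        exact_mod_cast hi
      linarith

lemma summable_cellSum {ω : Om} (hω : Good ω) {h : ℝ → ℝ} {K : ℕ} (h1 : ∀ u, |h u| ≤ 1)
    (h2 : ∀ u : ℝ, (K : ℝ) + 1 < u → h u = 0) :
    Summable (fun i => cellSum (Fc h i) (ω i)) :=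
  Summable.of_norm_bounded (summable_Ab hω K) (fun i => by
    rw [Real.norm_eq_abs]; exact cellSum_le hω h1 h2 i)

noncomputable def stp (t u : ℝ) : ℝ := if u ≤ t then 1 else 0

lemma measurable_stp (t : ℝ) : Measurable (stp t) := by
  unfold stp
  exact Measurable.ite measurableSet_Iic measurable_const measurable_const

lemma abs_stp_le (t u : ℝ) : |stp t u| ≤ 1 := by
  unfold stp; split_ifs <;> simp

lemma stp_zero {t : ℝ} {K : ℕ} (hK : t ≤ K + 1) (u : ℝ) (hu : (K:ℝ) + 1 < u) :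
    stp t u = 0 := by
  unfold stp; rw [if_neg]; linarith

/-- The process. -/
noncomputable def XX (t : ℝ) (ω : Om) : ℝ := ∑' i : Idx, cellSum (Fc (stp t) i) (ω i)

lemma measurable_cellSum_eval {F : ℝ × ℝ → ℝ} (hF : Measurable F) (i : Idx) :
    Measurable (fun ω : Om => cellSum F (ω i)) :=
  (measurable_cellSum hF).comp (measurable_pi_apply i)

lemma measurable_XX (t : ℝ) : Measurable (XX t) := by
  unfold XX
  refine Measurable.tsum ?_
  intro i
  exact measurable_cellSum_eval (measurable_Fc (measurable_stp t) i) i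

lemma summable_stp {ω : Om} (hω : Good ω) (t : ℝ) :
    Summable (fun i => cellSum (Fc (stp t) i) (ω i)) := by
  obtain ⟨K, hK⟩ := exists_nat_ge t
  exact summable_cellSum hω (abs_stp_le t) (stp_zero (hK.trans (by linarith)))

lemma stp_sub {a b : ℝ} (hab : a ≤ b) (u : ℝ) :
    stp b u - stp a u = (Set.Ioc a b).indicator (fun _ => (1:ℝ)) u := by
  unfold stp
  by_cases h1 : u ≤ a
  · have h2 : u ≤ b := h1.trans hab
    rw [if_pos h1, if_pos h2, Set.indicator_of_notMem]
    · simp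
    · intro h; exact absurd h.1 (not_lt.2 h1)
  · rw [if_neg h1]
    by_cases h2 : u ≤ b
    · rw [if_pos h2, Set.indicator_of_mem]
      · simp
      · exact ⟨not_le.1 h1, h2⟩
    · rw [if_neg h2, Set.indicator_of_notMem]
      · simp
      · intro h; exact h2 h.2

lemma incr_eq {ω : Om} (hω : Good ω) {n : ℕ} {t : Fin (n + 1) → ℝ} (ht : StrictMono t)
    (ξ : Fin n → ℝ) :
    ∑ j : Fin n, ξ j * (XX (t j.succ) ω - XX (t j.castSucc) ω)
      = ∑' i : Idx, cellSum (Fc (stepH t ξ) i) (ω i) := by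
  have h1 : ∀ j : Fin n, ξ j * (XX (t j.succ) ω - XX (t j.castSucc) ω)
      = ∑' i : Idx, ξ j * (cellSum (Fc (stp (t j.succ)) i) (ω i)
          - cellSum (Fc (stp (t j.castSucc)) i) (ω i)) := by
    intro j
    rw [tsum_mul_left, Summable.tsum_sub (summable_stp hω _) (summable_stp hω _)]
    rfl
  simp_rw [h1]
  rw [← Summable.tsum_finsetSum]
  · congr 1
    ext i
    unfold cellSum
    have h2 : ∀ l, Fc (stepH t ξ) i ((ω i).2 l) = ∑ j : Fin n, ξ j *
        (Fc (stp (t j.succ)) i ((ω i).2 l) - Fc (stp (t j.castSucc)) i ((ω i).2 l)) := by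
      intro l
      unfold Fc stepH
      rw [Finset.mul_sum]
      refine Finset.sum_congr rfl ?_
      intro j _
      rw [← stp_sub (ht.monotone (Fin.castSucc_lt_succ).le)]
      ring
    simp_rw [h2]
    rw [Finset.sum_comm]
    refine Finset.sum_congr rfl ?_
    intro j _
    rw [← Finset.sum_sub_distrib, Finset.mul_sum]
  · intro j _
    exact ((summable_stp hω _).sub (summable_stp hω _)).mul_left _

/-- joint characteristic function of the increments -/
lemma char_incr {n : ℕ} {t : Fin (n + 1) → ℝ} (ht0 : 0 ≤ t 0) (ht : StrictMono t)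
    (ξ : Fin n → ℝ) :
    ∫ ω, Complex.exp (((∑ j : Fin n, ξ j * (XX (t j.succ) ω - XX (t j.castSucc) ω) : ℝ) : ℂ)
        * Complex.I) ∂PP
      = Complex.exp
        ((-(∑ j : Fin n, (t j.succ - t j.castSucc) * |ξ j| ^ ((1:ℝ) / 41)) : ℝ) : ℂ) := by
  have hmF : ∀ i, Measurable (Fc (stepH t ξ) i) := fun i => measurable_Fc (measurable_stepH t ξ) i
  have hsum : ∀ᵐ ω ∂PP, Summable (fun i : Idx => cellSum (Fc (stepH t ξ) i) (ω i)) ∧
      ∑ j : Fin n, ξ j * (XX (t j.succ) ω - XX (t j.castSucc) ω)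
      = ∑' i : Idx, cellSum (Fc (stepH t ξ) i) (ω i) := by
    filter_upwards [ae_good] with ω hω
    refine ⟨?_, incr_eq hω ht ξ⟩
    have h2 : ∀ i, cellSum (Fc (stepH t ξ) i) (ω i) = ∑ j : Fin n, ξ j *
        (cellSum (Fc (stp (t j.succ)) i) (ω i) - cellSum (Fc (stp (t j.castSucc)) i) (ω i)) := by
      intro i
      unfold cellSum
      have h2 : ∀ l, Fc (stepH t ξ) i ((ω i).2 l) = ∑ j : Fin n, ξ j *
          (Fc (stp (t j.succ)) i ((ω i).2 l) - Fc (stp (t j.castSucc)) i ((ω i).2 l)) := by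
        intro l
        unfold Fc stepH
        rw [Finset.mul_sum]
        refine Finset.sum_congr rfl ?_
        intro j _
        rw [← stp_sub (ht.monotone (Fin.castSucc_lt_succ).le)]
        ring
      simp_rw [h2]
      rw [Finset.sum_comm]
      refine Finset.sum_congr rfl ?_
      intro j _
      rw [← Finset.sum_sub_distrib, Finset.mul_sum]
    simp_rw [h2]
    refine summable_sum ?_
    intro j _
    exact ((summable_stp hω _).sub (summable_stp hω _)).mul_left _
  have hlim1 : Tendsto (fun S : Finset Idx =>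
      ∫ ω, Complex.exp (((∑ i ∈ S, cellSum (Fc (stepH t ξ) i) (ω i) : ℝ) : ℂ) * Complex.I) ∂PP)
      atTop (𝓝 (∫ ω, Complex.exp
        (((∑ j : Fin n, ξ j * (XX (t j.succ) ω - XX (t j.castSucc) ω) : ℝ) : ℂ)
        * Complex.I) ∂PP)) := by
    refine tendsto_integral_filter_of_dominated_convergence (fun _ => (1:ℝ)) ?_ ?_
      (integrable_const _) ?_
    · refine Filter.Eventually.of_forall ?_
      intro S
      refine Measurable.aestronglyMeasurable ?_
      have : Measurable (fun ω : Om => ∑ i ∈ S, cellSum (Fc (stepH t ξ) i) (ω i)) := by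
        refine Finset.measurable_sum _ ?_
        intro i _
        exact measurable_cellSum_eval (hmF i) i
      fun_prop
    · refine Filter.Eventually.of_forall ?_
      intro S
      refine Filter.Eventually.of_forall ?_
      intro ω
      rw [Complex.norm_exp_ofReal_mul_I]
    · filter_upwards [hsum] with ω hω
      rw [hω.2]
      have h := hω.1.hasSum
      have hcont : Continuous (fun x : ℝ => Complex.exp (((x : ℝ) : ℂ) * Complex.I)) := by
        fun_prop
      exact (hcont.tendsto _).comp h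
  have hlim2 : Tendsto (fun S : Finset Idx =>
      ∫ ω, Complex.exp (((∑ i ∈ S, cellSum (Fc (stepH t ξ) i) (ω i) : ℝ) : ℂ) * Complex.I) ∂PP)
      atTop (𝓝 (Complex.exp
        ((-(∑ j : Fin n, (t j.succ - t j.castSucc) * |ξ j| ^ ((1:ℝ) / 41)) : ℝ) : ℂ))) := by
    simp_rw [fun S => integral_finite S (fun i => Fc (stepH t ξ) i) hmF]
    exact (Complex.continuous_exp.tendsto _).comp (hasSum_psi ht0 ht ξ)
  exact tendsto_nhds_unique hlim1 hlim2

end Pool.Agent.H977_stable
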