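import Mathlib
import Pool.Agent.H977_stable.Process

set_option autoImplicit false
open Filter Topology MeasureTheory ProbabilityTheory
open scoped ENNReal

namespace Pool.Agent.H977_stable

lemma XX_zero {ω : Om} (hω : Good ω) : XX 0 ω = 0 := by
  unfold XX
  have : ∀ i : Idx, cellSum (Fc (stp 0) i) (ω i) = 0 := by
    intro i
    unfold cellSum
    refine Finset.sum_eq_zero ?_
    intro j _
    unfold Fc stp
    have h1 := (hω.1 i j).1.1
    have h2 : (0:ℝ) ≤ (i.1 : ℝ) := Nat.cast_nonneg _
    rw [if_neg (by linarith), mul_zero]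
  simp_rw [this]
  exact tsum_zero

lemma right_cont {ω : Om} (hω : Good ω) (t : ℝ) :
    ContinuousWithinAt (fun s => XX s ω) (Set.Ici t) t := by
  obtain ⟨K, hK⟩ := exists_nat_ge t
  have h := tendsto_tsum_of_dominated_convergence (𝓕 := 𝓝[≥] t)
    (f := fun s (i : Idx) => cellSum (Fc (stp s) i) (ω i))
    (g := fun i => cellSum (Fc (stp t) i) (ω i)) (summable_Ab hω K) ?_ ?_
  · exact h
  · intro i
    unfold cellSum
    refine tendsto_finsetSum _ ?_
    intro j _
    unfold Fc
    refine Tendsto.const_mul _ ?_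
    set τ : ℝ := (i.1 : ℝ) + ((ω i).2 j).1 with hτ
    by_cases hle : τ ≤ t
    · refine tendsto_const_nhds.congr' ?_
      filter_upwards [self_mem_nhdsWithin] with s hs
      unfold stp
      rw [if_pos hle, if_pos (hle.trans hs)]
    · push Not at hle
      refine tendsto_const_nhds.congr' ?_
      have : ∀ᶠ s in 𝓝[≥] t, s < τ := (eventually_lt_nhds hle).filter_mono nhdsWithin_le_nhds
      filter_upwards [this] with s hs
      unfold stp
      rw [if_neg (not_le.2 hle), if_neg (not_le.2 hs)]
  · have : ∀ᶠ s in 𝓝[≥] t, s < t + 1 :=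
      (eventually_lt_nhds (by linarith)).filter_mono nhdsWithin_le_nhds
    filter_upwards [this] with s hs i
    rw [Real.norm_eq_abs]
    exact cellSum_le hω (abs_stp_le s) (stp_zero (by linarith)) i

lemma left_lim {ω : Om} (hω : Good ω) (t : ℝ) :
    ∃ l : ℝ, Tendsto (fun s => XX s ω) (𝓝[<] t) (𝓝 l) := by
  obtain ⟨K, hK⟩ := exists_nat_ge t
  refine ⟨∑' i : Idx, cellSum (Fc (fun u => if u < t then 1 else 0) i) (ω i), ?_⟩
  have h := tendsto_tsum_of_dominated_convergence (𝓕 := 𝓝[<] t)
    (f := fun s (i : Idx) => cellSum (Fc (stp s) i) (ω i))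
    (g := fun i => cellSum (Fc (fun u => if u < t then 1 else 0) i) (ω i)) (summable_Ab hω K) ?_ ?_
  · exact h
  · intro i
    unfold cellSum
    refine tendsto_finsetSum _ ?_
    intro j _
    unfold Fc
    refine Tendsto.const_mul _ ?_
    set τ : ℝ := (i.1 : ℝ) + ((ω i).2 j).1 with hτ
    by_cases hle : τ < t
    · refine tendsto_const_nhds.congr' ?_
      have : ∀ᶠ s in 𝓝[<] t, τ < s := (eventually_gt_nhds hle).filter_mono nhdsWithin_le_nhds
      filter_upwards [this] with s hs
      unfold stp
      rw [if_pos hle, if_pos hs.le]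
    · refine tendsto_const_nhds.congr' ?_
      filter_upwards [self_mem_nhdsWithin] with s hs
      unfold stp
      push Not at hle
      have : s < t := hs
      rw [if_neg (not_lt.2 hle), if_neg (not_le.2 (this.trans_le hle))]
  · filter_upwards [self_mem_nhdsWithin] with s hs i
    have : s < t := hs
    rw [Real.norm_eq_abs]
    exact cellSum_le hω (abs_stp_le s) (stp_zero (by linarith)) i

/-- one increment -/
lemma char_two {s t : ℝ} (hs : 0 ≤ s) (hst : s ≤ t) (ξ : ℝ) :
    ∫ ω, Complex.exp (((ξ * (XX t ω - XX s ω) : ℝ) : ℂ) * Complex.I) ∂PP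
      = ((Real.exp (-(t - s) * |ξ| ^ ((1:ℝ) / 41)) : ℝ) : ℂ) := by
  rcases hst.eq_or_lt with h | h
  · subst h
    simp
  · have h1 := char_incr (n := 1) (t := ![s, t]) (by simpa using hs) (by
      intro a b hab
      fin_cases a <;> fin_cases b <;> simp_all) (fun _ => ξ)
    simp only [Finset.univ_unique, Fin.default_eq_zero, Fin.isValue, Finset.sum_singleton] at h1
    have e1 : (![s, t] : Fin 2 → ℝ) (Fin.succ 0) = t := rfl
    have e2 : (![s, t] : Fin 2 → ℝ) (Fin.castSucc 0) = s := rfl
    rw [e1, e2] at h1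
    rw [h1, Complex.ofReal_exp]
    congr 2
    ring

lemma indep_incr (n : ℕ) (t : Fin (n + 1) → ℝ) (ht0 : 0 ≤ t 0) (ht : StrictMono t) :
    iIndepFun (fun (i : Fin n) (ω : Om) => XX (t i.succ) ω - XX (t i.castSucc) ω) PP := by
  have hm : ∀ i : Fin n, Measurable (fun ω : Om => XX (t i.succ) ω - XX (t i.castSucc) ω) :=
    fun i => (measurable_XX _).sub (measurable_XX _)
  rw [iIndepFun_iff_charFun_pi (fun i => (hm i).aemeasurable)]
  intro ξ
  have hL : charFun (Measure.map (fun ω => WithLp.toLp 2 fun x : Fin n =>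
      XX (t x.succ) ω - XX (t x.castSucc) ω) PP) ξ
      = ∫ ω, Complex.exp (((∑ j : Fin n, ξ.ofLp j * (XX (t j.succ) ω - XX (t j.castSucc) ω) : ℝ) : ℂ)
        * Complex.I) ∂PP := by
    rw [charFun_apply, integral_map]
    · congr 1
    · have : Measurable (fun ω => WithLp.toLp 2 fun x : Fin n =>
        XX (t x.succ) ω - XX (t x.castSucc) ω) := by
        have h2 : Measurable (fun ω => fun x : Fin n =>
          XX (t x.succ) ω - XX (t x.castSucc) ω) := measurable_pi_iff.2 hm
        fun_prop
      exact this.aemeasurable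
    · refine Measurable.aestronglyMeasurable ?_
      fun_prop
  rw [hL, char_incr ht0 ht]
  have hR : ∀ i : Fin n, charFun (Measure.map (fun ω => XX (t i.succ) ω - XX (t i.castSucc) ω) PP)
      (ξ.ofLp i) = ((Real.exp (-(t i.succ - t i.castSucc) * |ξ.ofLp i| ^ ((1:ℝ) / 41)) : ℝ) : ℂ) := by
    intro i
    rw [charFun_apply_real, integral_map]
    · rw [← char_two (ht0.trans (ht.monotone (Fin.zero_le _))) (ht.monotone (Fin.castSucc_lt_succ).le)]
      congr 1
      ext ω
      push_cast
      ring_nf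
    · exact (hm i).aemeasurable
    · refine Measurable.aestronglyMeasurable ?_
      fun_prop
  simp_rw [hR]
  rw [← Complex.ofReal_prod, ← Real.exp_sum, Complex.ofReal_exp]
  congr 2
  rw [← Finset.sum_neg_distrib]
  refine Finset.sum_congr rfl ?_
  intro j _
  ring

end Pool.Agent.H977_stable
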