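import Mathlib
import Pool.Agent.H977_stable.Path
import Pool.Agent.H977_stable.Fourier

set_option autoImplicit false
open Filter Topology MeasureTheory ProbabilityTheory
open scoped ENNReal

namespace Pool.Agent.H977_stable

/-- A finite sum of steps takes at most `card + 1` values. -/
lemma chain_values {κ : Type*} (Q : Finset κ) (J τ : κ → ℝ) :
    ∃ v : ℕ → ℝ, ∀ t : ℝ, ∃ c ≤ Q.card, ∑ p ∈ Q, J p * stp t (τ p) = v c := by
  classical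
  have hsum : ∀ t : ℝ, ∑ p ∈ Q, J p * stp t (τ p) = ∑ p ∈ Q.filter (fun p => τ p ≤ t), J p := by
    intro t
    rw [Finset.sum_filter]
    refine Finset.sum_congr rfl ?_
    intro p _
    unfold stp
    split_ifs <;> simp
  have hmono : ∀ t t' : ℝ, t ≤ t' →
      (Q.filter (fun p => τ p ≤ t)).card = (Q.filter (fun p => τ p ≤ t')).card →
      Q.filter (fun p => τ p ≤ t) = Q.filter (fun p => τ p ≤ t') := by
    intro t t' htt' hcard
    refine Finset.eq_of_subset_of_card_le ?_ hcard.ge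
    intro p hp
    rw [Finset.mem_filter] at hp ⊢
    exact ⟨hp.1, hp.2.trans htt'⟩
  have heq : ∀ t t' : ℝ,
      (Q.filter (fun p => τ p ≤ t)).card = (Q.filter (fun p => τ p ≤ t')).card →
      ∑ p ∈ Q, J p * stp t (τ p) = ∑ p ∈ Q, J p * stp t' (τ p) := by
    intro t t' hcard
    rw [hsum, hsum]
    rcases le_total t t' with h | h
    · rw [hmono t t' h hcard]
    · rw [hmono t' t h hcard.symm]
  refine ⟨fun c => if h : ∃ t : ℝ, (Q.filter (fun p => τ p ≤ t)).card = c then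
    ∑ p ∈ Q, J p * stp h.choose (τ p) else 0, ?_⟩
  intro t
  refine ⟨(Q.filter (fun p => τ p ≤ t)).card, Finset.card_filter_le _ _, ?_⟩
  have h : ∃ t' : ℝ, (Q.filter (fun p => τ p ≤ t')).card
      = (Q.filter (fun p => τ p ≤ t)).card := ⟨t, rfl⟩
  simp only [dif_pos h]
  exact heq t _ h.choose_spec.symm

noncomputable def WW (ω : Om) : ℝ := ∑' i, ((ω i).1 : ℝ) * wt i

lemma WW_nonneg (ω : Om) : 0 ≤ WW ω :=
  tsum_nonneg (fun i => mul_nonneg (Nat.cast_nonneg _) (wt_pos i).le)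

noncomputable def SM (M : ℕ) : Finset Idx := {0} ×ˢ Finset.Icc (-(M:ℤ)) M

lemma mem_SM {M : ℕ} {i : Idx} : i ∈ SM M ↔ i.1 = 0 ∧ |i.2| ≤ M := by
  unfold SM
  rw [Finset.mem_product, Finset.mem_singleton, Finset.mem_Icc, abs_le]

lemma tail_bound {ω : Om} (hω : Good ω) {M : ℕ} (hM : 2 ≤ M) {t : ℝ} (ht : t ≤ 1) :
    |XX t ω - ∑ i ∈ SM M, cellSum (Fc (stp t) i) (ω i)|
      ≤ 9 * cc * ((M : ℝ) ^ 39)⁻¹ * WW ω := by
  classical
  set f : Idx → ℝ := fun i => cellSum (Fc (stp t) i) (ω i) with hf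
  have hfs : Summable f := summable_stp hω t
  have h1 : XX t ω - ∑ i ∈ SM M, f i = ∑' i, (if i ∈ SM M then 0 else f i) := by
    have h2 : Summable (fun i => if i ∈ SM M then f i else 0) :=
      summable_of_hasFiniteSupport ((SM M).finite_toSet.subset (by
        intro i hi
        by_contra hcon
        apply hi
        simp only
        rw [if_neg]
        exact hcon))
    have h3 : ∑ i ∈ SM M, f i = ∑' i, (if i ∈ SM M then f i else 0) := by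
      rw [tsum_eq_sum (s := SM M)]
      · refine Finset.sum_congr rfl ?_
        intro i hi
        rw [if_pos hi]
      · intro i hi
        rw [if_neg hi]
    rw [h3]
    unfold XX
    rw [← Summable.tsum_sub hfs h2]
    congr 1
    ext i
    split_ifs <;> simp [hf]
  rw [h1, ← Real.norm_eq_abs]
  have hsum : HasSum (fun i => 9 * cc * ((M : ℝ) ^ 39)⁻¹ * (((ω i).1 : ℝ) * wt i))
      (9 * cc * ((M : ℝ) ^ 39)⁻¹ * WW ω) := hω.2.hasSum.mul_left _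
  refine tsum_of_norm_bounded hsum ?_
  intro i
  have hcc := cc_pos
  have hwt := wt_pos i
  have hMr : (2:ℝ) ≤ (M:ℝ) := by exact_mod_cast hM
  split_ifs with hi
  · rw [norm_zero]
    positivity
  · by_cases hk : i.1 = 0
    · have hn : (M:ℤ) < |i.2| := by
        by_contra hcon
        push Not at hcon
        exact hi (mem_SM.2 ⟨hk, hcon⟩)
      have hn2 : 2 ≤ |i.2| := by
        have : (2:ℤ) ≤ (M:ℤ) := by exact_mod_cast hM
        omega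
      have h4 := cellSum_le (K := 0) hω (abs_stp_le t) (stp_zero (by simpa using ht)) i
      rw [if_pos (by omega)] at h4
      rw [Real.norm_eq_abs]
      refine h4.trans ((Ab_le hω hn2).trans ?_)
      set m : ℝ := ((|i.2| : ℤ) : ℝ) with hm
      have hmM : (M:ℝ) + 1 ≤ m := by
        rw [hm]; exact_mod_cast hn
      have h5 : wt i = 1 / (m + 1) ^ 2 := by
        unfold wt
        rw [hk, pow_zero, one_mul]
      rw [h5]
      have hN : (0:ℝ) ≤ ((ω i).1 : ℝ) := Nat.cast_nonneg _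
      have h6 : ((m - 1) ^ 41)⁻¹ ≤ 9 * ((M:ℝ) ^ 39)⁻¹ * (1 / (m + 1) ^ 2) := by
        have h7 : (m - 1) ^ 41 = (m - 1) ^ 39 * (m - 1) ^ 2 := by ring
        rw [h7, mul_inv]
        have h8 : ((m - 1) ^ 39)⁻¹ ≤ ((M:ℝ) ^ 39)⁻¹ := by
          apply inv_anti₀ (by positivity)
          apply pow_le_pow_left₀ (by positivity)
          linarith
        have h9 : ((m - 1) ^ 2)⁻¹ ≤ 9 * (1 / (m + 1) ^ 2) := by
          rw [inv_eq_one_div, mul_one_div, div_le_div_iff₀ (by nlinarith) (by nlinarith)]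
          nlinarith
        have h10 : (0:ℝ) ≤ ((m - 1) ^ 2)⁻¹ := by positivity
        have h11 : (0:ℝ) ≤ ((M:ℝ) ^ 39)⁻¹ := by positivity
        calc ((m - 1) ^ 39)⁻¹ * ((m - 1) ^ 2)⁻¹
            ≤ ((M:ℝ) ^ 39)⁻¹ * (9 * (1 / (m + 1) ^ 2)) := by gcongr
          _ = _ := by ring
      calc ((ω i).1 : ℝ) * (cc * ((m - 1) ^ 41)⁻¹)
          ≤ ((ω i).1 : ℝ) * (cc * (9 * ((M:ℝ) ^ 39)⁻¹ * (1 / (m + 1) ^ 2))) := by gcongr
        _ = _ := by ring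
    · have hz : f i = 0 := by
        rw [hf]
        simp only
        unfold cellSum
        refine Finset.sum_eq_zero ?_
        intro j _
        unfold Fc stp
        have h1 := (hω.1 i j).1.1
        have h2 : (1:ℝ) ≤ (i.1 : ℝ) := by
          have : 1 ≤ i.1 := by omega
          exact_mod_cast this
        rw [if_neg (by linarith), mul_zero]
      rw [hz, norm_zero]
      positivity

noncomputable def QM (M : ℕ) (ω : Om) : Finset ((_ : Idx) × ℕ) :=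
  (SM M).sigma (fun i => Finset.range (ω i).1)

lemma QM_card {ω : Om} (hω : Good ω) (M : ℕ) :
    ((QM M ω).card : ℝ) ≤ ((M:ℝ) + 1) ^ 2 * WW ω := by
  unfold QM
  rw [Finset.card_sigma]
  push_cast
  simp only [Finset.card_range]
  have h1 : ∀ i ∈ SM M, ((ω i).1 : ℝ) ≤ ((M:ℝ) + 1) ^ 2 * (((ω i).1 : ℝ) * wt i) := by
    intro i hi
    rw [mem_SM] at hi
    have h5 : wt i = 1 / (((|i.2| : ℤ) : ℝ) + 1) ^ 2 := by
      unfold wt
      rw [hi.1, pow_zero, one_mul]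
    rw [h5]
    have h6 : (((|i.2| : ℤ) : ℝ)) ≤ (M:ℝ) := by exact_mod_cast hi.2
    have h7 : (0:ℝ) ≤ (((|i.2| : ℤ) : ℝ)) := by exact_mod_cast abs_nonneg i.2
    have hN : (0:ℝ) ≤ ((ω i).1 : ℝ) := Nat.cast_nonneg _
    have h8 : 1 ≤ ((M:ℝ) + 1) ^ 2 * (1 / (((|i.2| : ℤ) : ℝ) + 1) ^ 2) := by
      rw [mul_one_div, one_le_div (by positivity)]
      gcongr
    calc ((ω i).1 : ℝ) = ((ω i).1 : ℝ) * 1 := by ring
      _ ≤ ((ω i).1 : ℝ) * (((M:ℝ) + 1) ^ 2 * (1 / (((|i.2| : ℤ) : ℝ) + 1) ^ 2)) := by gcongr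
      _ = _ := by ring
  refine (Finset.sum_le_sum h1).trans ?_
  rw [← Finset.mul_sum]
  gcongr
  unfold WW
  exact hω.2.sum_le_tsum _ (fun i _ => mul_nonneg (Nat.cast_nonneg _) (wt_pos i).le)

/-- covering of the range by few short intervals -/
lemma cover {ω : Om} (hω : Good ω) {M : ℕ} (hM : 2 ≤ M) :
    ∃ v : ℕ → ℝ, ∀ t : ℝ, t ≤ 1 → ∃ c ≤ (QM M ω).card,
      |XX t ω - v c| ≤ 9 * cc * ((M : ℝ) ^ 39)⁻¹ * WW ω := by
  obtain ⟨v, hv⟩ := chain_values (QM M ω)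
    (fun p => cc * (((p.1.2 : ℝ) + ((ω p.1).2 p.2).2) ^ 41)⁻¹)
    (fun p => (p.1.1 : ℝ) + ((ω p.1).2 p.2).1)
  refine ⟨v, ?_⟩
  intro t ht
  obtain ⟨c, hc, hvc⟩ := hv t
  refine ⟨c, hc, ?_⟩
  have h1 : ∑ i ∈ SM M, cellSum (Fc (stp t) i) (ω i) = v c := by
    rw [← hvc]
    unfold QM
    rw [Finset.sum_sigma]
    rfl
  rw [← h1]
  exact tail_bound hω hM ht

/-- pigeonhole -/
lemma pigeon {μ : Measure (ℝ × ℝ)} [IsProbabilityMeasure μ] {K : Set (ℝ × ℝ)} (hK : μ Kᶜ = 0)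
    {v : ℕ → ℝ} {L : ℕ} {r : ℝ} (hcov : ∀ p ∈ K, ∃ c ≤ L, |p.2 - v c| ≤ r) :
    ∃ c, 1 / ((L : ℝ) + 1) ≤ μ.real {p : ℝ × ℝ | |p.2 - v c| ≤ r} := by
  by_contra hcon
  push Not at hcon
  have h1 : (Set.univ : Set (ℝ × ℝ)) ⊆ Kᶜ ∪ ⋃ c ∈ Finset.range (L + 1),
      {p : ℝ × ℝ | |p.2 - v c| ≤ r} := by
    intro p _
    by_cases hp : p ∈ K
    · right
      obtain ⟨c, hc, hc2⟩ := hcov p hp
      simp only [Set.mem_iUnion]
      exact ⟨c, Finset.mem_range.2 (by omega), hc2⟩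
    · left; exact hp
  have h2 : (1:ℝ) ≤ ∑ c ∈ Finset.range (L + 1), μ.real {p : ℝ × ℝ | |p.2 - v c| ≤ r} := by
    have h3 : μ.real Set.univ ≤ μ.real (Kᶜ ∪ ⋃ c ∈ Finset.range (L + 1),
      {p : ℝ × ℝ | |p.2 - v c| ≤ r}) := measureReal_mono h1
    have h4 := measureReal_union_le (μ := μ) Kᶜ (⋃ c ∈ Finset.range (L + 1),
      {p : ℝ × ℝ | |p.2 - v c| ≤ r})
    have h5 : μ.real Kᶜ = 0 := by rw [Measure.real, hK]; rfl
    have h6 := measureReal_biUnion_finset_le (μ := μ) (Finset.range (L + 1))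
      (fun c => {p : ℝ × ℝ | |p.2 - v c| ≤ r})
    have h7 : μ.real Set.univ = 1 := by simp
    linarith
  have h3 : ∑ c ∈ Finset.range (L + 1), μ.real {p : ℝ × ℝ | |p.2 - v c| ≤ r}
      < ∑ c ∈ Finset.range (L + 1), 1 / ((L:ℝ) + 1) := by
    refine Finset.sum_lt_sum_of_nonempty ⟨0, by simp⟩ ?_
    intro c _
    exact hcon c
  rw [Finset.sum_const, Finset.card_range, nsmul_eq_mul] at h3
  have h4 : ((L + 1 : ℕ) : ℝ) * (1 / ((L:ℝ) + 1)) = 1 := by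
    push_cast
    field_simp
  linarith

/-- On the good event no measure on the graph has Fourier decay of exponent `1/4`. -/
lemma no_decay {ω : Om} (hω : Good ω) {μ : Measure (ℝ × ℝ)} [IsProbabilityMeasure μ]
    {K : Set (ℝ × ℝ)} (hK : μ Kᶜ = 0)
    (hKs : K ⊆ {p : ℝ × ℝ | p.1 ∈ Set.Icc (0 : ℝ) 1 ∧ p.2 = XX p.1 ω}) {C : ℝ}
    (hC : ∀ ξ : ℝ × ℝ, 1 ≤ ‖ξ‖ →
      ‖∫ p, Complex.exp (((ξ.1 * p.1 + ξ.2 * p.2 : ℝ) : ℂ) * Complex.I) ∂μ‖
        ≤ C * ‖ξ‖ ^ (-(1 / 2 : ℝ) / 2)) : False := by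
  obtain ⟨M, hM⟩ := exists_nat_ge (max 2 (max (9 * cc * WW ω) (max (4 * WW ω + 1)
    (Real.exp 2 * (1 + C ^ 2) + 1))))
  have hM2 : (2:ℝ) ≤ M := (le_max_left _ _).trans hM
  have hM' := (le_max_right _ _).trans hM
  have hMa : 9 * cc * WW ω ≤ M := (le_max_left _ _).trans hM'
  have hM'' := (le_max_right _ _).trans hM'
  have hMb : 4 * WW ω + 1 ≤ M := (le_max_left _ _).trans hM''
  have hMc : Real.exp 2 * (1 + C ^ 2) + 1 ≤ M := (le_max_right _ _).trans hM''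
  have hMn : 2 ≤ M := by exact_mod_cast hM2
  have hM0 : (0:ℝ) < M := by linarith
  have hW := WW_nonneg ω
  have hcc := cc_pos
  obtain ⟨v, hv⟩ := cover hω hMn
  set δ : ℝ := ((M:ℝ) ^ 8)⁻¹ with hδ
  have hδ0 : 0 < δ := by positivity
  have hδ1 : δ ≤ 1 := inv_le_one_of_one_le₀ (one_le_pow₀ (by linarith))
  have hr : 9 * cc * ((M : ℝ) ^ 39)⁻¹ * WW ω ≤ δ ^ 4 := by
    have h1 : 9 * cc * ((M : ℝ) ^ 39)⁻¹ * WW ω = (9 * cc * WW ω) * ((M : ℝ) ^ 39)⁻¹ := by ring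
    rw [h1, hδ]
    calc (9 * cc * WW ω) * ((M : ℝ) ^ 39)⁻¹ ≤ M * ((M : ℝ) ^ 39)⁻¹ := by gcongr
      _ = ((M:ℝ) ^ 38)⁻¹ := by field_simp
      _ ≤ ((M:ℝ) ^ 32)⁻¹ := by
          apply inv_anti₀ (by positivity)
          exact pow_le_pow_right₀ (by linarith) (by norm_num)
      _ = (((M:ℝ) ^ 8)⁻¹) ^ 4 := by
          rw [inv_pow, ← pow_mul]
  have hcov : ∀ p ∈ K, ∃ c ≤ (QM M ω).card, |p.2 - v c| ≤ δ ^ 4 := by
    intro p hp
    obtain ⟨h1, h2⟩ := hKs hp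
    obtain ⟨c, hc, hc2⟩ := hv p.1 h1.2
    refine ⟨c, hc, ?_⟩
    rw [h2]
    exact hc2.trans hr
  obtain ⟨c, hc⟩ := pigeon hK hcov
  have hs := strip_bound hC hδ0 hδ1 (v c)
  have hL : ((QM M ω).card : ℝ) + 1 ≤ (M:ℝ) ^ 3 := by
    have h1 := QM_card hω M
    have h2 : ((M:ℝ) + 1) ^ 2 ≤ 4 * (M:ℝ) ^ 2 := by nlinarith
    have h3 : ((M:ℝ) + 1) ^ 2 * WW ω ≤ 4 * (M:ℝ) ^ 2 * WW ω := by gcongr
    have h4 : 4 * (M:ℝ) ^ 2 * WW ω + (M:ℝ) ^ 2 ≤ (M:ℝ) ^ 3 := by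
      have : (M:ℝ) ^ 2 * (4 * WW ω + 1) ≤ (M:ℝ) ^ 2 * M := by gcongr
      nlinarith
    have h5 : (1:ℝ) ≤ (M:ℝ) ^ 2 := by nlinarith
    linarith
  have ha : ((M:ℝ) ^ 3)⁻¹ ≤ μ.real {p : ℝ × ℝ | |p.2 - v c| ≤ δ ^ 4} := by
    refine le_trans ?_ hc
    rw [one_div]
    apply inv_anti₀ (by positivity) hL
  have hb : ((M:ℝ) ^ 3)⁻¹ ^ 2 ≤ Real.exp 2 * ((1 + C ^ 2) * δ) := by
    refine le_trans ?_ hs
    gcongr
  have hc1 : ((M:ℝ) ^ 3)⁻¹ ^ 2 * (M:ℝ) ^ 8 ≤ Real.exp 2 * ((1 + C ^ 2) * δ) * (M:ℝ) ^ 8 := by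
    gcongr
  have e1 : ((M:ℝ) ^ 3)⁻¹ ^ 2 * (M:ℝ) ^ 8 = (M:ℝ) ^ 2 := by
    field_simp
  have e2 : Real.exp 2 * ((1 + C ^ 2) * δ) * (M:ℝ) ^ 8 = Real.exp 2 * (1 + C ^ 2) := by
    rw [hδ]
    field_simp
  rw [e1, e2] at hc1
  nlinarith

end Pool.Agent.H977_stable
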